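import Pool.Agent.H90.EO.Fin

/-!
The typical size of the stability constant `ω(A)` of a `(2M-1) × M` Gaussian matrix: its exact
order is `4^(-M)`.
-/

open MeasureTheory Filter Topology Pool.Agent.H90.PR

namespace Pool.Agent.Results.MP_77e4cc_pr.ExactOrder

/-- **Main theorem.** `ω(A)` is of the exact order `4^(-M)` in probability: for every `ε > 0` there
are `c, C > 0` such that `c 4^(-M) ≤ ω(A) ≤ C 4^(-M)` with probability at least `1 - ε` for all large
`M`; with probability tending to one, `ω(A)` equals `4^(-M)` up to any factor `h(M)` which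
tends to infinity; and for every `M ≥ 1` and `c ≥ 0` the probability of `ω(A) ≤ c 4^(-M)` is at
most `6 c`. -/
theorem result :
    (∀ ε : ℝ, 0 < ε → ∃ c C : ℝ, 0 < c ∧ 0 < C ∧ ∀ᶠ M : ℕ in atTop,
      gaussLaw M {A | ¬ (c / 4 ^ M ≤ omega (Matrix.of A) ∧ omega (Matrix.of A) ≤ C / 4 ^ M)} ≤
        ENNReal.ofReal ε) ∧
    (∀ h : ℕ → ℝ, Tendsto h atTop atTop →
      Tendsto (fun M : ℕ => gaussLaw M {A | ¬ (1 / (h M * 4 ^ M) ≤ omega (Matrix.of A) ∧
        omega (Matrix.of A) ≤ h M / 4 ^ M)}) atTop (𝓝 0)) ∧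
    (∀ M : ℕ, 1 ≤ M → ∀ c : ℝ, 0 ≤ c →
      gaussLaw M {A | omega (Matrix.of A) ≤ c / 4 ^ M} ≤ ENNReal.ofReal (6 * c)) :=
  ⟨Pool.Agent.H90.EO.exact_order, Pool.Agent.H90.EO.exact_order_tendsto,
    Pool.Agent.H90.EO.gaussLaw_small⟩

end Pool.Agent.Results.MP_77e4cc_pr.ExactOrder
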