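import Pool.Agent.H90.PR.Defs
import Pool.Agent.H90.PR.Main

/-!
The bound `ω(A) ≤ C max_k ‖A_k‖ β^M` for `(2M-1) × M` Gaussian matrices: it holds with probability
tending to one for every `β > 1/4` and with probability tending to zero for every `β < 1/4`, for every
constant `C > 0`. So the infimum of admissible `β` is `1/4`.
-/

open MeasureTheory Filter Topology Pool.Agent.H90.PR

namespace Pool.Agent.Results.MP_77e4cc_pr.SmallestBeta

/-- **Main theorem.** Some `β ∈ (0,1)` is admissible and the infimum of the admissible `β` is `1/4`.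
More precisely: for every `C > 0`, the inequality `ω(A) ≤ C max_k ‖A_k‖ β^M` fails with probability
tending to `0` if `β > 1/4`, and holds with probability tending to `0` if `0 < β < 1/4`. -/
theorem result :
    (∃ β : ℝ, 0 < β ∧ β < 1 ∧ Admissible β) ∧
    IsGLB {β : ℝ | 0 < β ∧ β < 1 ∧ Admissible β} (1 / 4) ∧
    (∀ β : ℝ, 1 / 4 < β → ∀ C : ℝ, 0 < C →
      Tendsto (fun M : ℕ => gaussLaw M
        {A | ¬ omega (Matrix.of A) ≤ C * maxRow (Matrix.of A) * β ^ M}) atTop (𝓝 0)) ∧
    (∀ β : ℝ, 0 < β → β < 1 / 4 → ∀ C : ℝ, 0 < C →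
      Tendsto (fun M : ℕ => gaussLaw M
        {A | omega (Matrix.of A) ≤ C * maxRow (Matrix.of A) * β ^ M}) atTop (𝓝 0)) := by
  refine ⟨⟨1 / 2, by norm_num, by norm_num, admissible_of_gt _ (by norm_num)⟩, ⟨?_, ?_⟩,
    gaussLaw_upper, gaussLaw_lower⟩
  · rintro β ⟨h0, -, h⟩
    by_contra hlt
    exact not_admissible_of_lt β h0 (not_le.mp hlt) h
  · intro x hx
    by_contra hlt
    rw [not_le] at hlt
    have h1 : 1 / 4 < min x 1 := lt_min hlt (by norm_num)
    obtain ⟨β, hβ1, hβ2⟩ := exists_between h1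
    have hβx : β < x := hβ2.trans_le (min_le_left _ _)
    have hβ3 : β < 1 := hβ2.trans_le (min_le_right _ _)
    exact absurd (hx ⟨by linarith, hβ3, admissible_of_gt β hβ1⟩) (not_le.mpr hβx)

end Pool.Agent.Results.MP_77e4cc_pr.SmallestBeta
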